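import Mathlib

/-!
# Probability tensors with several real critical points of the distance to rank-one tensors

For every `M ≥ 23`, the squared distance to the rank-one `M × 2` tensors with sum of entries `1` has
exactly `5` complex critical points for generic data, and there is a nonempty open set of data,
containing probability tensors with positive entries, for which there are exactly `5` critical
points, at least `3` of which are real.
-/

set_option autoImplicit false

open Finset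

namespace Pool.Agent.Results.MP_450528_ag.SeveralRealCriticalPoints

/-- Tensors of format `m 0 × m 1 × ⋯ × m (d - 1)` with entries in `𝕜`. -/
abbrev Tensor (𝕜 : Type) {d : ℕ} (m : Fin d → ℕ) : Type := (∀ k, Fin (m k)) → 𝕜

/-- The rank-one (or zero) tensor `a⁽¹⁾ ⊗ ⋯ ⊗ a⁽ᵈ⁾`. -/
def rankOne {d : ℕ} {m : Fin d → ℕ} (a : ∀ k, Fin (m k) → ℂ) : Tensor ℂ m :=
  fun I => ∏ k, a k (I k)

/-- `X^H`: the tensors of the Segre cone with sum of entries equal to `1`. -/
def XH {d : ℕ} (m : Fin d → ℕ) : Set (Tensor ℂ m) :=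
  {x | (∃ a, rankOne a = x) ∧ ∑ I, x I = 1}

/-- The tangent space at `x ≠ 0` of the Segre cone: it is spanned by the tensors
`a⁽¹⁾ ⊗ ⋯ ⊗ b ⊗ ⋯ ⊗ a⁽ᵈ⁾` with `x = a⁽¹⁾ ⊗ ⋯ ⊗ a⁽ᵈ⁾`, where `b` is any vector replacing one
factor. -/
def segreTangent {d : ℕ} {m : Fin d → ℕ} (x : Tensor ℂ m) : Submodule ℂ (Tensor ℂ m) :=
  Submodule.span ℂ {y | ∃ (a : ∀ k, Fin (m k) → ℂ) (k : Fin d) (b : Fin (m k) → ℂ),
    rankOne a = x ∧ y = rankOne (Function.update a k b)}

/-- The tangent space at `x` of the smooth affine variety `X^H`: the tangent vectors of the Segre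
cone with sum of entries `0`. -/
def tangentXH {d : ℕ} {m : Fin d → ℕ} (x : Tensor ℂ m) : Set (Tensor ℂ m) :=
  {y | y ∈ segreTangent x ∧ ∑ I, y I = 0}

/-- The set of critical points of the squared distance from `T` on `X^H`: the `x ∈ X^H` with `x - T`
orthogonal to the tangent space of `X^H` at `x`. -/
def critSet {d : ℕ} {m : Fin d → ℕ} (T : Tensor ℂ m) : Set (Tensor ℂ m) :=
  {x | x ∈ XH m ∧ ∀ y ∈ tangentXH x, ∑ I, (x I - T I) * y I = 0}

/-- A real tensor as a complex tensor. -/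
def toC {d : ℕ} {m : Fin d → ℕ} (T : Tensor ℝ m) : Tensor ℂ m := fun I => (T I : ℂ)

/-- The set of real critical points for real data. -/
def realCritSet {d : ℕ} {m : Fin d → ℕ} (T : Tensor ℝ m) : Set (Tensor ℂ m) :=
  {x | x ∈ critSet (toC T) ∧ ∀ I, (x I).im = 0}

/-- `N` is the number of critical points on `X^H` for generic data `T`: the number is `N` for all
`T` outside a Zariski closed set which does not contain the hyperplane `H`. -/
def IsGenericCount {d : ℕ} (m : Fin d → ℕ) (N : ℕ) : Prop :=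
  ∃ Φ : MvPolynomial (∀ k, Fin (m k)) ℂ,
    (∃ T : Tensor ℂ m, ∑ I, T I = 1 ∧ MvPolynomial.eval T Φ ≠ 0) ∧
    ∀ T : Tensor ℂ m, MvPolynomial.eval T Φ ≠ 0 → (critSet T).encard = N

/-! ### The quintic -/

/-- The quintic `(y - σ) (1 + y²)² + D (y² - 1) + 4 E y`. -/
noncomputable def quintic {R : Type*} [CommRing R] (σ D E : R) : Polynomial R :=
  (Polynomial.X - Polynomial.C σ) * (1 + Polynomial.X ^ 2) ^ 2 +
    (Polynomial.C D * (Polynomial.X ^ 2 - 1) + Polynomial.C (4 * E) * Polynomial.X)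

theorem quintic_map {R S : Type*} [CommRing R] [CommRing S] (f : R →+* S) (σ D E : R) :
    (quintic σ D E).map f = quintic (f σ) (f D) (f E) := by
  have h4 : f 4 = 4 := map_ofNat f 4
  simp [quintic, h4]

theorem quintic_eval {R : Type*} [CommRing R] (σ D E y : R) :
    (quintic σ D E).eval y = (y - σ) * (1 + y ^ 2) ^ 2 + (D * (y ^ 2 - 1) + 4 * E * y) := by
  simp [quintic]

theorem quintic_monic_degree {R : Type*} [CommRing R] [Nontrivial R] (σ D E : R) :
    (quintic σ D E).Monic ∧ (quintic σ D E).natDegree = 5 := by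
  have h1 : (Polynomial.X - Polynomial.C σ).Monic := Polynomial.monic_X_sub_C σ
  have h2 : (1 + Polynomial.X ^ 2 : Polynomial R).Monic := by
    rw [add_comm]
    exact Polynomial.monic_X_pow_add (by rw [Polynomial.degree_one]; norm_num)
  have h2d : (1 + Polynomial.X ^ 2 : Polynomial R).natDegree = 2 := by
    compute_degree!
  have h3 : ((Polynomial.X - Polynomial.C σ) * (1 + Polynomial.X ^ 2) ^ 2).Monic :=
    h1.mul (h2.pow 2)
  have h4 : ((Polynomial.X - Polynomial.C σ) * (1 + Polynomial.X ^ 2) ^ 2).natDegree = 5 := by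
    rw [h1.natDegree_mul (h2.pow 2), h2.natDegree_pow, h2d, Polynomial.natDegree_X_sub_C]
  have h5 : (Polynomial.C D * (Polynomial.X ^ 2 - 1) +
      Polynomial.C (4 * E) * Polynomial.X).natDegree ≤ 2 := by
    compute_degree
  have h6 : (Polynomial.C D * (Polynomial.X ^ 2 - 1) +
      Polynomial.C (4 * E) * Polynomial.X).degree <
      ((Polynomial.X - Polynomial.C σ) * (1 + Polynomial.X ^ 2) ^ 2).degree := by
    rw [Polynomial.degree_eq_natDegree h3.ne_zero, h4]
    refine lt_of_le_of_lt (Polynomial.degree_le_of_natDegree_le h5) ?_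
    norm_cast
  refine ⟨h3.add_of_left h6, ?_⟩
  rw [quintic, Polynomial.natDegree_add_eq_left_of_degree_lt h6, h4]

/-- If the resultant of the quintic and its derivative is nonzero, then the quintic has `5` distinct
complex roots. -/
theorem encard_roots {σ D E : ℂ}
    (h : Polynomial.resultant (quintic σ D E) (Polynomial.derivative (quintic σ D E)) 5 4 ≠ 0) :
    {y : ℂ | (quintic σ D E).eval y = 0}.encard = 5 := by
  obtain ⟨hm, hd⟩ := quintic_monic_degree σ D E
  have hd' : (Polynomial.derivative (quintic σ D E)).natDegree = 4 := by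
    rw [Polynomial.natDegree_derivative, hd]
  have h' : Polynomial.resultant (quintic σ D E) (Polynomial.derivative (quintic σ D E)) ≠ 0 := by
    rw [hd, hd']
    exact h
  have hcop : (quintic σ D E).Separable := by
    by_contra hno
    exact h' (Polynomial.resultant_eq_zero_iff.2 ⟨Or.inl hm.ne_zero, hno⟩)
  have hroots : (quintic σ D E).roots.toFinset.card = 5 := by
    rw [Multiset.toFinset_card_of_nodup (Polynomial.nodup_roots hcop)]
    have := (IsAlgClosed.splits (quintic σ D E)).natDegree_eq_card_roots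
    rw [hd] at this
    exact this.symm
  have hset : {y : ℂ | (quintic σ D E).eval y = 0} = ((quintic σ D E).roots.toFinset : Set ℂ) := by
    ext y
    simp [hm.ne_zero]
  rw [hset, Set.encard_coe_eq_coe_finsetCard, hroots]
  rfl

/-! ### The format `M × 2` -/

/-- the format `M × 2` -/
abbrev fmt (M : ℕ) : Fin 2 → ℕ := ![M, 2]

/-- the index with components `i` and `j` -/
def idx {M : ℕ} (i : Fin M) (j : Fin 2) : ∀ k : Fin 2, Fin (fmt M k) :=
  (piFinTwoEquiv fun k => Fin (fmt M k)).symm (i, j)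

theorem sum_idx {M : ℕ} {A : Type*} [AddCommMonoid A] (F : (∀ k : Fin 2, Fin (fmt M k)) → A) :
    ∑ I, F I = ∑ i : Fin M, (F (idx i 0) + F (idx i 1)) := by
  rw [← (piFinTwoEquiv fun k => Fin (fmt M k)).symm.sum_comp, Fintype.sum_prod_type]
  refine Finset.sum_congr rfl fun i _ => ?_
  exact Fin.sum_univ_two (fun j : Fin 2 => F (idx i j))

theorem eq_idx {M : ℕ} (I : ∀ k : Fin 2, Fin (fmt M k)) : ∃ (i : Fin M) (j : Fin 2), I = idx i j :=
  ⟨I 0, I 1, ((piFinTwoEquiv fun k => Fin (fmt M k)).symm_apply_apply I).symm⟩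

/-- the matrix `a bᵀ` -/
def tens {K : Type} [Field K] {M : ℕ} (a : Fin M → K) (b : Fin 2 → K) : Tensor K (fmt M) :=
  fun I => a (I 0) * b (I 1)

theorem tens_idx {K : Type} [Field K] {M : ℕ} (a : Fin M → K) (b : Fin 2 → K) (i : Fin M)
    (j : Fin 2) : tens a b (idx i j) = a i * b j := rfl

/-- the first vector -/
def fstv {M : ℕ} (c : ∀ k, Fin (fmt M k) → ℂ) : Fin M → ℂ := c 0

/-- the second vector -/
def sndv {M : ℕ} (c : ∀ k, Fin (fmt M k) → ℂ) : Fin 2 → ℂ := c 1

theorem rankOne_eq {M : ℕ} (c : ∀ k, Fin (fmt M k) → ℂ) : rankOne c = tens (fstv c) (sndv c) := by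
  funext I
  rw [rankOne, Fin.prod_univ_two]
  rfl

/-- the pair of vectors -/
def pr {M : ℕ} (a : Fin M → ℂ) (b : Fin 2 → ℂ) : ∀ k, Fin (fmt M k) → ℂ :=
  (piFinTwoEquiv fun k => Fin (fmt M k) → ℂ).symm (a, b)

theorem sum_tens {M : ℕ} (a : Fin M → ℂ) (b : Fin 2 → ℂ) :
    ∑ I, tens a b I = (∑ i, a i) * (b 0 + b 1) := by
  rw [sum_idx, Finset.sum_mul]
  refine Finset.sum_congr rfl fun i _ => ?_
  rw [tens_idx, tens_idx, mul_add]

theorem mem_XH {M : ℕ} (x : Tensor ℂ (fmt M)) :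
    x ∈ XH (fmt M) ↔ ∃ (a : Fin M → ℂ) (b : Fin 2 → ℂ), ∑ i, a i = 1 ∧ b 0 + b 1 = 1 ∧
      x = tens a b := by
  constructor
  · rintro ⟨⟨c, rfl⟩, hs⟩
    rw [rankOne_eq] at hs ⊢
    generalize fstv c = c0 at hs ⊢
    generalize sndv c = c1 at hs ⊢
    rw [sum_tens] at hs
    set s : ℂ := ∑ i, c0 i with hsd
    have hs0 : s ≠ 0 := by
      intro h
      rw [h, zero_mul] at hs
      exact zero_ne_one hs
    refine ⟨fun i => s⁻¹ * c0 i, fun j => s * c1 j, ?_, ?_, ?_⟩
    · rw [← Finset.mul_sum, ← hsd, inv_mul_cancel₀ hs0]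
    · rw [← mul_add, hs]
    · funext I
      show c0 (I 0) * c1 (I 1) = s⁻¹ * c0 (I 0) * (s * c1 (I 1))
      field_simp
  · rintro ⟨a, b, ha, hb, rfl⟩
    refine ⟨⟨pr a b, ?_⟩, ?_⟩
    · rw [rankOne_eq]
      rfl
    · rw [sum_tens, ha, hb, one_mul]

theorem tens_add_left {M : ℕ} (a a' : Fin M → ℂ) (b : Fin 2 → ℂ) :
    tens (a + a') b = tens a b + tens a' b := by
  funext I
  exact add_mul _ _ _

theorem tens_add_right {M : ℕ} (a : Fin M → ℂ) (b b' : Fin 2 → ℂ) :
    tens a (b + b') = tens a b + tens a b' := by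
  funext I
  exact mul_add _ _ _

theorem tens_smul_left {M : ℕ} (c : ℂ) (a : Fin M → ℂ) (b : Fin 2 → ℂ) :
    tens (c • a) b = c • tens a b := by
  funext I
  exact mul_assoc _ _ _

theorem tens_smul_right {M : ℕ} (c : ℂ) (a : Fin M → ℂ) (b : Fin 2 → ℂ) :
    tens a (c • b) = c • tens a b := by
  funext I
  exact mul_left_comm _ _ _

theorem mem_segreTangent {M : ℕ} {a : Fin M → ℂ} {b : Fin 2 → ℂ} (ha : ∑ i, a i = 1)
    (hb : b 0 + b 1 = 1) (y : Tensor ℂ (fmt M)) :
    y ∈ segreTangent (tens a b) ↔ ∃ (a' : Fin M → ℂ) (b' : Fin 2 → ℂ),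
      y = tens a' b + tens a b' := by
  constructor
  · intro hy
    induction hy using Submodule.span_induction with
    | mem y hy =>
      obtain ⟨c, k, v, hc, rfl⟩ := hy
      rw [rankOne_eq] at hc
      obtain ⟨c0, hc0⟩ : ∃ c0, c0 = fstv c := ⟨_, rfl⟩
      obtain ⟨c1, hc1⟩ : ∃ c1, c1 = sndv c := ⟨_, rfl⟩
      rw [← hc0, ← hc1] at hc
      have h1 : ∀ i j, c0 i * c1 j = a i * b j := by
        intro i j
        exact congrFun hc (idx i j)
      set s0 : ℂ := ∑ i, c0 i with hs0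
      set s1 : ℂ := c1 0 + c1 1 with hs1
      have h2 : s0 * s1 = 1 := by
        have := congrArg (fun x : Tensor ℂ (fmt M) => ∑ I, x I) hc
        simp only [sum_tens, ha, hb, one_mul] at this
        exact this
      have h3 : ∀ i, c0 i = s0 * a i := by
        intro i
        have : c0 i * s1 = a i := by
          rw [hs1, mul_add, h1, h1, ← mul_add, hb, mul_one]
        rw [← this]
        linear_combination (-c0 i) * h2
      have h4 : ∀ j, c1 j = s1 * b j := by
        intro j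
        have : s0 * c1 j = b j := by
          rw [hs0, Finset.sum_mul]
          simp_rw [h1]
          rw [← Finset.sum_mul, ha, one_mul]
        rw [← this]
        linear_combination (-c1 j) * h2
      have hk : k = 0 ∨ k = 1 := by
        fin_cases k
        · exact Or.inl rfl
        · exact Or.inr rfl
      rcases hk with rfl | rfl
      · refine ⟨s1 • (v : Fin M → ℂ), 0, ?_⟩
        have e1 : rankOne (Function.update c 0 v) = tens (v : Fin M → ℂ) c1 := by
          rw [rankOne_eq, hc1]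
          congr 1
        rw [e1]
        funext I
        show (v : Fin M → ℂ) (I 0) * c1 (I 1) =
          (s1 * (v : Fin M → ℂ) (I 0)) * b (I 1) + a (I 0) * 0
        rw [h4 (I 1)]
        ring
      · refine ⟨0, s0 • (v : Fin 2 → ℂ), ?_⟩
        have e1 : rankOne (Function.update c 1 v) = tens c0 (v : Fin 2 → ℂ) := by
          rw [rankOne_eq, hc0]
          congr 1
        rw [e1]
        funext I
        show c0 (I 0) * (v : Fin 2 → ℂ) (I 1) =
          0 * b (I 1) + a (I 0) * (s0 * (v : Fin 2 → ℂ) (I 1))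
        rw [h3 (I 0)]
        ring
    | zero =>
      refine ⟨0, 0, ?_⟩
      funext I
      show (0 : ℂ) = 0 * b (I 1) + a (I 0) * 0
      ring
    | add x y _ _ hx hy =>
      obtain ⟨a₁, b₁, rfl⟩ := hx
      obtain ⟨a₂, b₂, rfl⟩ := hy
      refine ⟨a₁ + a₂, b₁ + b₂, ?_⟩
      rw [tens_add_left, tens_add_right]
      abel
    | smul r x _ hx =>
      obtain ⟨a₁, b₁, rfl⟩ := hx
      refine ⟨r • a₁, r • b₁, ?_⟩
      rw [tens_smul_left, tens_smul_right, smul_add]
  · rintro ⟨a', b', rfl⟩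
    refine Submodule.add_mem _ (Submodule.subset_span ⟨pr a b, 0, a', ?_, ?_⟩)
      (Submodule.subset_span ⟨pr a b, 1, b', ?_, ?_⟩)
    · rw [rankOne_eq]; rfl
    · rw [rankOne_eq]; rfl
    · rw [rankOne_eq]; rfl
    · rw [rankOne_eq]; rfl

/-- the equations of a critical point -/
theorem crit_iff {M : ℕ} (hM : 0 < M) (T : Tensor ℂ (fmt M)) {a : Fin M → ℂ} {b : Fin 2 → ℂ}
    (ha : ∑ i, a i = 1) (hb : b 0 + b 1 = 1) :
    tens a b ∈ critSet T ↔
      (∃ l : ℂ, ∀ i, (b 0 ^ 2 + b 1 ^ 2) * a i - (T (idx i 0) * b 0 + T (idx i 1) * b 1) = l) ∧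
      (∑ i, a i ^ 2) * (b 0 - b 1) = ∑ i, a i * (T (idx i 0) - T (idx i 1)) := by
  have hexp : ∀ (a' : Fin M → ℂ) (b' : Fin 2 → ℂ),
      ∑ I, (tens a b I - T I) * (tens a' b + tens a b') I =
      (∑ i, a' i * ((b 0 ^ 2 + b 1 ^ 2) * a i - (T (idx i 0) * b 0 + T (idx i 1) * b 1))) +
      (b' 0 * ((∑ i, a i ^ 2) * b 0 - ∑ i, a i * T (idx i 0)) +
        b' 1 * ((∑ i, a i ^ 2) * b 1 - ∑ i, a i * T (idx i 1))) := by
    intro a' b'
    rw [sum_idx]
    simp only [Finset.sum_mul, ← Finset.sum_sub_distrib, Finset.mul_sum, ← Finset.sum_add_distrib]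
    refine Finset.sum_congr rfl fun i _ => ?_
    simp only [Pi.add_apply, tens_idx]
    ring
  constructor
  · rintro ⟨-, hc⟩
    constructor
    · refine ⟨(b 0 ^ 2 + b 1 ^ 2) * a ⟨0, hM⟩ -
          (T (idx ⟨0, hM⟩ 0) * b 0 + T (idx ⟨0, hM⟩ 1) * b 1), fun i => ?_⟩
      · have h1 := hc (tens (Pi.single i 1 - Pi.single ⟨0, hM⟩ 1) b + tens a 0)
          ⟨(mem_segreTangent ha hb _).2 ⟨_, _, rfl⟩, ?_⟩
        · rw [hexp] at h1
          simp only [Pi.sub_apply, sub_mul, Finset.sum_sub_distrib, Pi.zero_apply, zero_mul,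
            add_zero, Pi.single_apply, ite_mul, one_mul, Finset.sum_ite_eq', Finset.mem_univ,
            if_true] at h1
          linear_combination h1
        · simp only [Pi.add_apply, Finset.sum_add_distrib, sum_tens]
          simp
    · have h1 := hc (tens 0 b + tens a ![1, -1])
          ⟨(mem_segreTangent ha hb _).2 ⟨_, _, rfl⟩, ?_⟩
      · rw [hexp] at h1
        simp only [Pi.zero_apply, zero_mul, Finset.sum_const_zero, zero_add,
          Matrix.cons_val_zero, Matrix.cons_val_one, Matrix.cons_val_fin_one] at h1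
        simp only [mul_sub, Finset.sum_sub_distrib]
        linear_combination h1
      · simp only [Pi.add_apply, Finset.sum_add_distrib, sum_tens]
        simp
  · rintro ⟨⟨l, hl⟩, h2⟩
    refine ⟨(mem_XH _).2 ⟨a, b, ha, hb, rfl⟩, ?_⟩
    rintro y ⟨hy, hys⟩
    obtain ⟨a', b', rfl⟩ := (mem_segreTangent ha hb _).1 hy
    rw [hexp]
    simp only [Pi.add_apply, Finset.sum_add_distrib, sum_tens, ha, hb, one_mul, mul_one] at hys
    simp_rw [hl]
    rw [← Finset.sum_mul]
    -- the second multiplier equals the first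
    have h3 : (b 0 * ((∑ i, a i ^ 2) * b 0 - ∑ i, a i * T (idx i 0)) +
        b 1 * ((∑ i, a i ^ 2) * b 1 - ∑ i, a i * T (idx i 1))) = l := by
      have h4 : ∑ i, a i * ((b 0 ^ 2 + b 1 ^ 2) * a i -
          (T (idx i 0) * b 0 + T (idx i 1) * b 1)) = l := by
        simp_rw [hl]
        rw [← Finset.sum_mul, ha, one_mul]
      rw [← h4]
      simp only [Finset.sum_mul, ← Finset.sum_sub_distrib, Finset.mul_sum,
        ← Finset.sum_add_distrib]
      refine Finset.sum_congr rfl fun i _ => ?_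
      ring
    simp only [mul_sub, Finset.sum_sub_distrib] at h2
    have h5 : ((∑ i, a i ^ 2) * b 0 - ∑ i, a i * T (idx i 0)) =
        ((∑ i, a i ^ 2) * b 1 - ∑ i, a i * T (idx i 1)) := by
      linear_combination h2
    rw [h5] at h3 ⊢
    have h6 : ((∑ i, a i ^ 2) * b 1 - ∑ i, a i * T (idx i 1)) = l := by
      rw [← h3]
      linear_combination (-((∑ i, a i ^ 2) * b 1 - ∑ i, a i * T (idx i 1))) * hb
    rw [h6]
    linear_combination l * hys

/-! ### The quintic of a matrix -/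

section
variable {K : Type} [Field K] {M : ℕ} (T : Tensor K (fmt M))

/-- the difference of the column sums -/
def sg : K := (∑ i, T (idx i 0)) - ∑ i, T (idx i 1)

/-- the coefficient `D` -/
def dd : K := ((M : K) * ∑ i, T (idx i 0) ^ 2 - (∑ i, T (idx i 0)) ^ 2) -
  ((M : K) * ∑ i, T (idx i 1) ^ 2 - (∑ i, T (idx i 1)) ^ 2)

/-- the coefficient `E` -/
def ee : K := (M : K) * ∑ i, T (idx i 0) * T (idx i 1) - (∑ i, T (idx i 0)) * ∑ i, T (idx i 1)

/-- the values of `T b` for `b = ((1 + y) / 2, (1 - y) / 2)` -/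
def tb (y : K) (i : Fin M) : K := T (idx i 0) * ((1 + y) / 2) + T (idx i 1) * ((1 - y) / 2)

/-- the multiplier -/
def lam (y : K) : K := ((1 + y ^ 2) / 2 - ∑ i, tb T y i) / M

/-- the critical point of a root `y` of the quintic -/
def pt (y : K) : Tensor K (fmt M) :=
  tens (fun i => (tb T y i + lam T y) / ((1 + y ^ 2) / 2)) ![(1 + y) / 2, (1 - y) / 2]

theorem sum_tb (y : K) : ∑ i, tb T y i =
    (∑ i, T (idx i 0)) * ((1 + y) / 2) + (∑ i, T (idx i 1)) * ((1 - y) / 2) := by
  simp only [tb, Finset.sum_add_distrib, Finset.sum_mul]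

theorem sum_tb_sq (y : K) : ∑ i, tb T y i ^ 2 =
    (∑ i, T (idx i 0) ^ 2) * ((1 + y) / 2) ^ 2 +
    2 * (∑ i, T (idx i 0) * T (idx i 1)) * ((1 + y) / 2) * ((1 - y) / 2) +
    (∑ i, T (idx i 1) ^ 2) * ((1 - y) / 2) ^ 2 := by
  simp only [Finset.sum_mul, Finset.mul_sum, ← Finset.sum_add_distrib]
  refine Finset.sum_congr rfl fun i _ => ?_
  rw [tb]
  ring

theorem sum_tb_mul (y : K) : ∑ i, tb T y i * (T (idx i 0) - T (idx i 1)) =
    ((∑ i, T (idx i 0) ^ 2) - ∑ i, T (idx i 0) * T (idx i 1)) * ((1 + y) / 2) +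
    ((∑ i, T (idx i 0) * T (idx i 1)) - ∑ i, T (idx i 1) ^ 2) * ((1 - y) / 2) := by
  simp only [← Finset.sum_sub_distrib, Finset.sum_mul, ← Finset.sum_add_distrib]
  refine Finset.sum_congr rfl fun i _ => ?_
  rw [tb]
  ring

/-- the key identity -/
theorem key_identity (h2 : (2 : K) ≠ 0) (hM : (M : K) ≠ 0) {y : K} (hw : (1 + y ^ 2) / 2 ≠ 0) :
    4 * (M : K) * ((1 + y ^ 2) / 2) ^ 2 *
      ((∑ i, ((tb T y i + lam T y) / ((1 + y ^ 2) / 2)) ^ 2) * y -
        ∑ i, ((tb T y i + lam T y) / ((1 + y ^ 2) / 2)) * (T (idx i 0) - T (idx i 1))) =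
      (quintic (sg T) (dd T) (ee T)).eval y := by
  set w : K := (1 + y ^ 2) / 2 with hwd
  have e1 : ∑ i, ((tb T y i + lam T y) / w) ^ 2 =
      (∑ i, tb T y i ^ 2 + 2 * lam T y * ∑ i, tb T y i + M * lam T y ^ 2) / w ^ 2 := by
    rw [Finset.mul_sum, ← Finset.sum_add_distrib]
    have : (M : K) * lam T y ^ 2 = ∑ _i : Fin M, lam T y ^ 2 := by simp
    rw [this, ← Finset.sum_add_distrib, Finset.sum_div]
    refine Finset.sum_congr rfl fun i _ => ?_
    rw [div_pow]
    ring
  have e2 : ∑ i, ((tb T y i + lam T y) / w) * (T (idx i 0) - T (idx i 1)) =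
      (∑ i, tb T y i * (T (idx i 0) - T (idx i 1)) + lam T y * sg T) / w := by
    rw [sg, ← Finset.sum_sub_distrib, Finset.mul_sum, ← Finset.sum_add_distrib, Finset.sum_div]
    refine Finset.sum_congr rfl fun i _ => ?_
    ring
  have hML : (M : K) * lam T y = w - ∑ i, tb T y i := by
    rw [lam, ← hwd, mul_div_cancel₀ _ hM]
  have e3 : ∀ S1 S2 S3 L : K, 4 * (M : K) * w ^ 2 *
      ((S2 + 2 * L * S1 + M * L ^ 2) / w ^ 2 * y - (S3 + L * sg T) / w) =
      4 * ((M * S2 + 2 * (M * L) * S1 + (M * L) ^ 2) * y - w * (M * S3 + (M * L) * sg T)) := by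
    intro S1 S2 S3 L
    field_simp
  rw [e1, e2, e3, hML, sum_tb_sq, sum_tb_mul, sum_tb, quintic_eval, sg, dd, ee]
  generalize (∑ i, T (idx i 0)) = s0
  generalize (∑ i, T (idx i 1)) = s1
  generalize (∑ i, T (idx i 0) ^ 2) = n0
  generalize (∑ i, T (idx i 1) ^ 2) = n1
  generalize (∑ i, T (idx i 0) * T (idx i 1)) = n2
  rw [hwd]
  field_simp
  ring

end

/-- the description of the set of critical points -/
theorem critSet_eq {M : ℕ} (hM : 0 < M) (T : Tensor ℂ (fmt M))
    (hne : dd T ^ 2 + 4 * ee T ^ 2 ≠ 0) :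
    critSet T = pt T '' {y | (quintic (sg T) (dd T) (ee T)).eval y = 0} ∧
      Set.InjOn (pt T) {y | (quintic (sg T) (dd T) (ee T)).eval y = 0} := by
  have hM0 : (M : ℂ) ≠ 0 := by exact_mod_cast hM.ne'
  have hw : ∀ y, (quintic (sg T) (dd T) (ee T)).eval y = 0 → (1 + y ^ 2) / 2 ≠ 0 := by
    intro y hy h0
    rw [quintic_eval] at hy
    have h1 : y ^ 2 = -1 := by linear_combination 2 * h0
    have h2 : dd T = 2 * ee T * y := by
      have h3 : (1 + y ^ 2) = 0 := by linear_combination 2 * h0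
      rw [h3, h1] at hy
      linear_combination (-1 / 2) * hy
    apply hne
    rw [h2]
    linear_combination (4 * ee T ^ 2) * h1
  have hsum : ∀ y, (1 + y ^ 2) / 2 ≠ 0 →
      ∑ i, (tb T y i + lam T y) / ((1 + y ^ 2) / 2) = 1 := by
    intro y hy
    rw [← Finset.sum_div, Finset.sum_add_distrib, Finset.sum_const, Finset.card_univ,
      Fintype.card_fin, nsmul_eq_mul, lam, mul_div_cancel₀ _ hM0, add_sub_cancel, div_self hy]
  have hb : ∀ y : ℂ, (![(1 + y) / 2, (1 - y) / 2] : Fin 2 → ℂ) 0 +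
      (![(1 + y) / 2, (1 - y) / 2] : Fin 2 → ℂ) 1 = 1 := by
    intro y
    simp only [Matrix.cons_val_zero, Matrix.cons_val_one, Matrix.cons_val_fin_one]
    ring
  constructor
  · ext x
    constructor
    · intro hx
      obtain ⟨a, b, ha, hab, rfl⟩ := (mem_XH x).1 hx.1
      obtain ⟨⟨l, hl⟩, h2⟩ := (crit_iff hM T ha hab).1 hx
      set y : ℂ := b 0 - b 1 with hy
      have hb0 : b 0 = (1 + y) / 2 := by linear_combination (1 / 2) * hab + (1 / 2) * hy
      have hb1 : b 1 = (1 - y) / 2 := by linear_combination (1 / 2) * hab - (1 / 2) * hy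
      have hbb : b = ![(1 + y) / 2, (1 - y) / 2] := by
        funext j
        fin_cases j
        · exact hb0
        · exact hb1
      have hwb : b 0 ^ 2 + b 1 ^ 2 = (1 + y ^ 2) / 2 := by
        rw [hb0, hb1]
        ring
      have hl' : ∀ i, (1 + y ^ 2) / 2 * a i = tb T y i + l := by
        intro i
        have := hl i
        rw [hwb, hb0, hb1] at this
        rw [tb]
        linear_combination this
      have hsl : (1 + y ^ 2) / 2 = ∑ i, tb T y i + M * l := by
        have h3 : ∑ i, (1 + y ^ 2) / 2 * a i = ∑ i, (tb T y i + l) :=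
          Finset.sum_congr rfl fun i _ => hl' i
        rw [← Finset.mul_sum, ha, mul_one, Finset.sum_add_distrib] at h3
        rw [h3]
        simp
      have hll : l = lam T y := by
        rw [lam, hsl]
        field_simp
        ring
      by_cases hw0 : (1 + y ^ 2) / 2 = 0
      · exfalso
        have ht : ∀ i, tb T y i = -l := by
          intro i
          have := hl' i
          rw [hw0, zero_mul] at this
          linear_combination -this
        have hs1 : ∑ i, tb T y i = -(M * l) := by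
          rw [hw0] at hsl
          linear_combination -hsl
        have hs2 : ∑ i, tb T y i ^ 2 = M * l ^ 2 := by
          simp_rw [ht]
          simp
        rw [sum_tb] at hs1
        rw [sum_tb_sq] at hs2
        have hy2 : y ^ 2 = -1 := by linear_combination 2 * hw0
        have h4 : dd T * y / 2 + ee T = 0 := by
          have h5 : (M : ℂ) * ((∑ i, T (idx i 0) ^ 2) * ((1 + y) / 2) ^ 2 +
              2 * (∑ i, T (idx i 0) * T (idx i 1)) * ((1 + y) / 2) * ((1 - y) / 2) +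
              (∑ i, T (idx i 1) ^ 2) * ((1 - y) / 2) ^ 2) -
              ((∑ i, T (idx i 0)) * ((1 + y) / 2) + (∑ i, T (idx i 1)) * ((1 - y) / 2)) ^ 2 = 0 := by
            rw [hs1, hs2]
            ring
          rw [dd, ee]
          generalize (∑ i, T (idx i 0)) = s0 at *
          generalize (∑ i, T (idx i 1)) = s1 at *
          generalize (∑ i, T (idx i 0) ^ 2) = n0 at *
          generalize (∑ i, T (idx i 1) ^ 2) = n1 at *
          generalize (∑ i, T (idx i 0) * T (idx i 1)) = n2 at *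
          linear_combination h5 - (((M : ℂ) * n0 - s0 ^ 2) / 4 + (M * n1 - s1 ^ 2) / 4 -
            (M * n2 - s0 * s1) / 2) * hy2
        apply hne
        have h6 : ee T = -(dd T * y / 2) := by linear_combination h4
        rw [h6]
        linear_combination (dd T ^ 2) * hy2
      · have haa : a = fun i => (tb T y i + lam T y) / ((1 + y ^ 2) / 2) := by
          funext i
          rw [eq_div_iff hw0, ← hll, ← hl', mul_comm]
        refine ⟨y, ?_, ?_⟩
        · show (quintic (sg T) (dd T) (ee T)).eval y = 0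
          rw [← key_identity T two_ne_zero hM0 hw0]
          have h3 : (∑ i, ((tb T y i + lam T y) / ((1 + y ^ 2) / 2)) ^ 2) * y -
              ∑ i, ((tb T y i + lam T y) / ((1 + y ^ 2) / 2)) * (T (idx i 0) - T (idx i 1)) = 0 := by
            rw [haa] at h2
            linear_combination h2
          rw [h3, mul_zero]
        · rw [pt, ← haa, ← hbb]
    · rintro ⟨y, hy, rfl⟩
      have hwy := hw y hy
      rw [pt, crit_iff hM T (hsum y hwy) (hb y)]
      constructor
      · refine ⟨lam T y, fun i => ?_⟩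
        simp only [Matrix.cons_val_zero, Matrix.cons_val_one, Matrix.cons_val_fin_one]
        have h1 : (((1 + y) / 2) ^ 2 + ((1 - y) / 2) ^ 2 : ℂ) = (1 + y ^ 2) / 2 := by ring
        rw [h1, mul_div_cancel₀ _ hwy, tb]
        ring
      · have h1 := key_identity T two_ne_zero hM0 hwy
        have h2 : (quintic (sg T) (dd T) (ee T)).eval y = 0 := hy
        rw [h2] at h1
        have h3 : (4 * (M : ℂ) * ((1 + y ^ 2) / 2) ^ 2) ≠ 0 :=
          mul_ne_zero (mul_ne_zero (by norm_num) hM0) (pow_ne_zero 2 hwy)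
        have h4 := (mul_eq_zero.1 h1).resolve_left h3
        simp only [Matrix.cons_val_zero, Matrix.cons_val_one, Matrix.cons_val_fin_one]
        have h5 : ((1 + y) / 2 - (1 - y) / 2 : ℂ) = y := by ring
        rw [h5]
        linear_combination h4
  · intro y hy y' hy' h
    have h1 : ∀ z, (1 + z ^ 2) / 2 ≠ 0 → ∑ i, pt T z (idx i 0) = (1 + z) / 2 := by
      intro z hz
      have := hsum z hz
      simp only [pt, tens_idx, ← Finset.sum_mul]
      rw [this, one_mul]
      rfl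
    have h2 := h1 y (hw y hy)
    rw [h, h1 y' (hw y' hy')] at h2
    linear_combination (-2) * h2

/-- The number of critical points is `5`. -/
theorem encard_critSet {M : ℕ} (hM : 0 < M) (T : Tensor ℂ (fmt M))
    (hne : dd T ^ 2 + 4 * ee T ^ 2 ≠ 0)
    (hres : Polynomial.resultant (quintic (sg T) (dd T) (ee T))
      (Polynomial.derivative (quintic (sg T) (dd T) (ee T))) 5 4 ≠ 0) :
    (critSet T).encard = 5 := by
  obtain ⟨h1, h2⟩ := critSet_eq hM T hne
  rw [h1, h2.encard_image, encard_roots hres]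

/-! ### The generic condition -/

/-- `sg` as a polynomial -/
noncomputable def sgP (M : ℕ) : MvPolynomial (∀ k, Fin (fmt M k)) ℂ :=
  ∑ i, MvPolynomial.X (idx i 0) - ∑ i, MvPolynomial.X (idx i 1)

/-- `dd` as a polynomial -/
noncomputable def ddP (M : ℕ) : MvPolynomial (∀ k, Fin (fmt M k)) ℂ :=
  ((M : MvPolynomial (∀ k, Fin (fmt M k)) ℂ) * ∑ i, MvPolynomial.X (idx i 0) ^ 2 -
    (∑ i, MvPolynomial.X (idx i 0)) ^ 2) -
  ((M : MvPolynomial (∀ k, Fin (fmt M k)) ℂ) * ∑ i, MvPolynomial.X (idx i 1) ^ 2 -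
    (∑ i, MvPolynomial.X (idx i 1)) ^ 2)

/-- `ee` as a polynomial -/
noncomputable def eeP (M : ℕ) : MvPolynomial (∀ k, Fin (fmt M k)) ℂ :=
  (M : MvPolynomial (∀ k, Fin (fmt M k)) ℂ) *
    ∑ i, MvPolynomial.X (idx i 0) * MvPolynomial.X (idx i 1) -
    (∑ i, MvPolynomial.X (idx i 0)) * ∑ i, MvPolynomial.X (idx i 1)

theorem eval_sgP {M : ℕ} (T : Tensor ℂ (fmt M)) : MvPolynomial.eval T (sgP M) = sg T := by
  simp [sgP, sg]

theorem eval_ddP {M : ℕ} (T : Tensor ℂ (fmt M)) : MvPolynomial.eval T (ddP M) = dd T := by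
  simp [ddP, dd]

theorem eval_eeP {M : ℕ} (T : Tensor ℂ (fmt M)) : MvPolynomial.eval T (eeP M) = ee T := by
  simp [eeP, ee]

/-- the polynomial whose nonvanishing ensures `5` critical points -/
noncomputable def phiPoly (M : ℕ) : MvPolynomial (∀ k, Fin (fmt M k)) ℂ :=
  (ddP M ^ 2 + 4 * eeP M ^ 2) * Polynomial.resultant (quintic (sgP M) (ddP M) (eeP M))
    (Polynomial.derivative (quintic (sgP M) (ddP M) (eeP M))) 5 4

theorem eval_phiPoly {M : ℕ} (T : Tensor ℂ (fmt M)) :
    MvPolynomial.eval T (phiPoly M) = (dd T ^ 2 + 4 * ee T ^ 2) *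
      Polynomial.resultant (quintic (sg T) (dd T) (ee T))
        (Polynomial.derivative (quintic (sg T) (dd T) (ee T))) 5 4 := by
  have h4 : MvPolynomial.eval T (4 : MvPolynomial (∀ k, Fin (fmt M k)) ℂ) = 4 := map_ofNat _ 4
  rw [phiPoly, map_mul, ← Polynomial.resultant_map_map, ← Polynomial.derivative_map, quintic_map,
    eval_sgP, eval_ddP, eval_eeP, map_add, map_mul, map_pow, map_pow, eval_ddP, eval_eeP, h4]

/-- the tensor with a single nonzero entry -/
def e11 (K : Type) [Field K] (M : ℕ) (hM : 0 < M) : Tensor K (fmt M) :=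
  tens (Pi.single ⟨0, hM⟩ 1) ![1, 0]

theorem e11_values (K : Type) [Field K] {M : ℕ} (hM : 0 < M) :
    ∑ I, e11 K M hM I = 1 ∧ sg (e11 K M hM) = 1 ∧ dd (e11 K M hM) = M - 1 ∧
      ee (e11 K M hM) = 0 := by
  have h0 : ∀ i, e11 K M hM (idx i 0) = (Pi.single ⟨0, hM⟩ 1 : Fin M → K) i := by
    intro i
    rw [e11, tens_idx]
    simp
  have h1 : ∀ i, e11 K M hM (idx i 1) = 0 := by
    intro i
    rw [e11, tens_idx]
    simp
  have h2 : ∑ i, (Pi.single ⟨0, hM⟩ 1 : Fin M → K) i = 1 := by simp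
  have h3 : ∑ i, (Pi.single ⟨0, hM⟩ 1 : Fin M → K) i ^ 2 = 1 := by
    rw [Finset.sum_eq_single ⟨0, hM⟩]
    · simp
    · intro i _ hi
      simp [hi]
    · simp
  refine ⟨?_, ?_, ?_, ?_⟩
  · rw [sum_idx]
    simp_rw [h0, h1, add_zero]
    exact h2
  · rw [sg]
    simp_rw [h0, h1]
    rw [h2]
    simp
  · rw [dd]
    simp_rw [h0, h1]
    rw [h2, h3]
    simp
  · rw [ee]
    simp_rw [h0, h1]
    simp

theorem coprime_aux {M : ℕ} (hM : 23 ≤ M) :
    Polynomial.resultant (quintic (1 : ℂ) (M - 1) 0)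
      (Polynomial.derivative (quintic (1 : ℂ) (M - 1) 0)) 5 4 ≠ 0 := by
  obtain ⟨hm, hd⟩ := quintic_monic_degree (1 : ℂ) (M - 1) 0
  have hd' : (Polynomial.derivative (quintic (1 : ℂ) (M - 1) 0)).natDegree = 4 := by
    rw [Polynomial.natDegree_derivative, hd]
  intro h
  have h' : Polynomial.resultant (quintic (1 : ℂ) (M - 1) 0)
      (Polynomial.derivative (quintic (1 : ℂ) (M - 1) 0)) = 0 := by
    rw [hd, hd']
    exact h
  have h2 := (Polynomial.resultant_eq_zero_iff.1 h').2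
  apply h2
  rw [Polynomial.isCoprime_iff_aeval_ne_zero_of_isAlgClosed ℂ ℂ]
  intro y
  by_contra hno
  push Not at hno
  obtain ⟨h3, h4⟩ := hno
  set c : ℂ := M - 1 with hc
  have e1 : (y - 1) * ((1 + y ^ 2) ^ 2 + c * (y + 1)) = 0 := by
    rw [Polynomial.coe_aeval_eq_eval, quintic_eval] at h3
    linear_combination h3
  have e2 : ((1 + y ^ 2) ^ 2 + c * (y + 1)) + (y - 1) * (4 * y * (1 + y ^ 2) + c) = 0 := by
    rw [Polynomial.coe_aeval_eq_eval] at h4
    simp only [quintic, Polynomial.derivative_add, Polynomial.derivative_mul,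
      Polynomial.derivative_sub, Polynomial.derivative_X, Polynomial.derivative_C,
      Polynomial.derivative_pow, Polynomial.derivative_one, Polynomial.eval_add,
      Polynomial.eval_mul, Polynomial.eval_sub, Polynomial.eval_pow, Polynomial.eval_X,
      Polynomial.eval_C, Polynomial.eval_one, Polynomial.eval_zero] at h4
    norm_num at h4
    linear_combination h4
  -- positivity of a quadratic polynomial in `c`
  have hcR : (27 : ℂ) * c ^ 2 - 544 * c - 512 ≠ 0 := by
    intro h0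
    have h5 : (27 : ℝ) * ((M : ℝ) - 1) ^ 2 - 544 * ((M : ℝ) - 1) - 512 = 0 := by
      have h6 : (((27 : ℝ) * ((M : ℝ) - 1) ^ 2 - 544 * ((M : ℝ) - 1) - 512 : ℝ) : ℂ) = 0 := by
        push_cast
        rw [← h0, hc]
      exact_mod_cast h6
    have h6 : (23 : ℝ) ≤ M := by exact_mod_cast hM
    nlinarith
  have hc0 : c ≠ 0 := by
    intro h0
    have h5 : (M : ℂ) = 1 := by linear_combination h0 - hc
    have h6 : M = 1 := by exact_mod_cast h5
    omega
  have hc2 : (c + 2 : ℂ) ≠ 0 := by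
    intro h0
    have h5 : ((M + 1 : ℕ) : ℂ) = 0 := by
      push_cast
      linear_combination h0 - hc
    have h6 : M + 1 = 0 := by exact_mod_cast h5
    omega
  by_cases hy : y = 1
  · rw [hy] at e2
    apply hc2
    linear_combination (1 / 2) * e2
  · have hy' : y - 1 ≠ 0 := sub_ne_zero.2 hy
    have e3 : (1 + y ^ 2) ^ 2 + c * (y + 1) = 0 := (mul_eq_zero.1 e1).resolve_left hy'
    rw [e3, zero_add] at e2
    have e4 : 4 * y * (1 + y ^ 2) + c = 0 := (mul_eq_zero.1 e2).resolve_left hy'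
    have e5 : (1 + y ^ 2) * (1 - 4 * y - 3 * y ^ 2) = 0 := by
      linear_combination e3 - (y + 1) * e4
    rcases mul_eq_zero.1 e5 with e6 | e6
    · rw [e6, mul_zero, zero_add] at e4
      exact hc0 e4
    · apply hcR
      have e7 : c = -(16 / 9) * (7 * y - 1) := by
        linear_combination e4 + (4 / 3 * y - 16 / 9) * e6
      rw [e7]
      linear_combination (-(6912 : ℂ) * 49 / 243) * e6

theorem eval_phiPoly_e11 {M : ℕ} (hM : 23 ≤ M) (hM0 : 0 < M) :
    MvPolynomial.eval (e11 ℂ M hM0) (phiPoly M) ≠ 0 := by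
  obtain ⟨_, h1, h2, h3⟩ := e11_values ℂ hM0
  rw [eval_phiPoly, h1, h2, h3]
  refine mul_ne_zero ?_ (coprime_aux hM)
  intro h
  have h4 : (M : ℂ) - 1 = 0 := by
    have : ((M : ℂ) - 1) ^ 2 = 0 := by linear_combination h
    exact pow_eq_zero_iff two_ne_zero |>.1 this
  have h5 : (M : ℂ) = 1 := by linear_combination h4
  have h6 : M = 1 := by exact_mod_cast h5
  omega

/-- The generic number of critical points for the format `M × 2` is `5`. -/
theorem isGenericCount {M : ℕ} (hM : 23 ≤ M) : IsGenericCount (fmt M) 5 := by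
  have hM0 : 0 < M := by omega
  refine ⟨phiPoly M, ⟨e11 ℂ M hM0, (e11_values ℂ hM0).1, eval_phiPoly_e11 hM hM0⟩, ?_⟩
  intro T hT
  rw [eval_phiPoly] at hT
  exact encard_critSet hM0 T (left_ne_zero_of_mul hT) (right_ne_zero_of_mul hT)

/-! ### Real points -/

theorem sg_toC {M : ℕ} (T : Tensor ℝ (fmt M)) : sg (toC T) = ((sg T : ℝ) : ℂ) := by
  simp [sg, toC]

theorem dd_toC {M : ℕ} (T : Tensor ℝ (fmt M)) : dd (toC T) = ((dd T : ℝ) : ℂ) := by
  simp [dd, toC]

theorem ee_toC {M : ℕ} (T : Tensor ℝ (fmt M)) : ee (toC T) = ((ee T : ℝ) : ℂ) := by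
  simp [ee, toC]

theorem tb_toC {M : ℕ} (T : Tensor ℝ (fmt M)) (y : ℝ) (i : Fin M) :
    tb (toC T) (y : ℂ) i = ((tb T y i : ℝ) : ℂ) := by
  simp [tb, toC]

theorem pt_toC {M : ℕ} (T : Tensor ℝ (fmt M)) (y : ℝ) : pt (toC T) (y : ℂ) = toC (pt T y) := by
  funext I
  obtain ⟨i, j, rfl⟩ := eq_idx I
  have h1 : (![(1 + (y : ℂ)) / 2, (1 - (y : ℂ)) / 2] : Fin 2 → ℂ) j =
      ((![(1 + y) / 2, (1 - y) / 2] : Fin 2 → ℝ) j : ℂ) := by
    fin_cases j <;> simp
  rw [pt, tens_idx, toC, pt, tens_idx, h1, lam, lam, tb_toC]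
  simp_rw [tb_toC]
  push_cast
  rfl

theorem quintic_real {M : ℕ} (T : Tensor ℝ (fmt M)) (y : ℝ) :
    (quintic (sg (toC T)) (dd (toC T)) (ee (toC T))).eval (y : ℂ) =
      ((quintic (sg T) (dd T) (ee T)).eval y : ℝ) := by
  rw [quintic_eval, quintic_eval, sg_toC, dd_toC, ee_toC]
  push_cast
  rfl

/-- Real roots of the quintic give real critical points. -/
theorem le_realCritSet {M : ℕ} (hM : 0 < M) (T : Tensor ℝ (fmt M))
    (hne : dd (toC T) ^ 2 + 4 * ee (toC T) ^ 2 ≠ 0) {y₁ y₂ y₃ : ℝ} (h12 : y₁ < y₂) (h23 : y₂ < y₃)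
    (h1 : (quintic (sg T) (dd T) (ee T)).eval y₁ = 0)
    (h2 : (quintic (sg T) (dd T) (ee T)).eval y₂ = 0)
    (h3 : (quintic (sg T) (dd T) (ee T)).eval y₃ = 0) : 3 ≤ (realCritSet T).encard := by
  obtain ⟨hc, hinj⟩ := critSet_eq hM (toC T) hne
  have hroot : ∀ y : ℝ, (quintic (sg T) (dd T) (ee T)).eval y = 0 →
      (y : ℂ) ∈ {y | (quintic (sg (toC T)) (dd (toC T)) (ee (toC T))).eval y = 0} := by
    intro y hy
    show (quintic (sg (toC T)) (dd (toC T)) (ee (toC T))).eval (y : ℂ) = 0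
    rw [quintic_real, hy]
    simp
  have hsub : pt (toC T) '' {(y₁ : ℂ), (y₂ : ℂ), (y₃ : ℂ)} ⊆ realCritSet T := by
    rintro _ ⟨z, hz, rfl⟩
    obtain ⟨y, hy, rfl⟩ : ∃ y : ℝ, (quintic (sg T) (dd T) (ee T)).eval y = 0 ∧ (y : ℂ) = z := by
      rcases hz with rfl | rfl | rfl
      · exact ⟨y₁, h1, rfl⟩
      · exact ⟨y₂, h2, rfl⟩
      · exact ⟨y₃, h3, rfl⟩
    refine ⟨?_, ?_⟩
    · rw [hc]
      exact ⟨_, hroot y hy, rfl⟩
    · intro I
      rw [pt_toC]
      exact Complex.ofReal_im _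
  have hcard : ({(y₁ : ℂ), (y₂ : ℂ), (y₃ : ℂ)} : Set ℂ).encard = 3 := by
    rw [Set.encard_insert_of_notMem, Set.encard_pair]
    · norm_num
    · intro h
      exact absurd (Complex.ofReal_injective h) h23.ne
    · rintro (h | h)
      · exact absurd (Complex.ofReal_injective h) h12.ne
      · exact absurd (Complex.ofReal_injective h) (h12.trans h23).ne
  refine le_trans ?_ (Set.encard_le_encard hsub)
  rw [Set.InjOn.encard_image, hcard]
  apply hinj.mono
  rintro z (rfl | rfl | rfl)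
  · exact hroot _ h1
  · exact hroot _ h2
  · exact hroot _ h3

/-! ### The open set -/

/-- the value of the quintic of `T` at `y` -/
noncomputable def qv {M : ℕ} (T : Tensor ℝ (fmt M)) (y : ℝ) : ℝ :=
  (y - sg T) * (1 + y ^ 2) ^ 2 + (dd T * (y ^ 2 - 1) + 4 * ee T * y)

theorem qv_eq {M : ℕ} (T : Tensor ℝ (fmt M)) (y : ℝ) :
    (quintic (sg T) (dd T) (ee T)).eval y = qv T y := quintic_eval _ _ _ _

/-- the open set of data -/
def U (M : ℕ) : Set (Tensor ℝ (fmt M)) :=
  {T | MvPolynomial.eval (toC T) (phiPoly M) ≠ 0 ∧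
    qv T (-M) < 0 ∧ 0 < qv T (-3 / 2) ∧ qv T 0 < 0 ∧ 0 < qv T 2}

theorem continuous_qv {M : ℕ} (y : ℝ) : Continuous fun T : Tensor ℝ (fmt M) => qv T y := by
  unfold qv sg dd ee
  fun_prop

theorem continuous_toC {M : ℕ} : Continuous fun T : Tensor ℝ (fmt M) => toC T := by
  unfold toC
  fun_prop

theorem isOpen_U (M : ℕ) : IsOpen (U M) := by
  have h1 : IsOpen {T : Tensor ℝ (fmt M) | MvPolynomial.eval (toC T) (phiPoly M) ≠ 0} :=
    isOpen_ne_fun ((MvPolynomial.continuous_eval (phiPoly M)).comp continuous_toC) continuous_const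
  have h2 : ∀ y : ℝ, IsOpen {T : Tensor ℝ (fmt M) | qv T y < 0} := fun y =>
    isOpen_lt (continuous_qv y) continuous_const
  have h3 : ∀ y : ℝ, IsOpen {T : Tensor ℝ (fmt M) | 0 < qv T y} := fun y =>
    isOpen_lt continuous_const (continuous_qv y)
  exact h1.inter ((h2 _).inter ((h3 _).inter ((h2 _).inter (h3 _))))

theorem toC_e11 {M : ℕ} (hM : 0 < M) : toC (e11 ℝ M hM) = e11 ℂ M hM := by
  funext I
  obtain ⟨i, j, rfl⟩ := eq_idx I
  rw [toC, e11, e11, tens_idx, tens_idx, Pi.single_apply, Pi.single_apply]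
  fin_cases j <;> split_ifs <;> simp

theorem e11_mem_U {M : ℕ} (hM : 23 ≤ M) (hM0 : 0 < M) : e11 ℝ M hM0 ∈ U M := by
  obtain ⟨_, h1, h2, h3⟩ := e11_values ℝ hM0
  have hMR : (23 : ℝ) ≤ M := by exact_mod_cast hM
  have hq : ∀ y, qv (e11 ℝ M hM0) y = (y - 1) * ((1 + y ^ 2) ^ 2 + (M - 1) * (y + 1)) := by
    intro y
    rw [qv, h1, h2, h3]
    ring
  refine ⟨?_, ?_, ?_, ?_, ?_⟩
  · rw [toC_e11]
    exact eval_phiPoly_e11 hM hM0
  · rw [hq]
    have : (0 : ℝ) < (1 + (-(M : ℝ)) ^ 2) ^ 2 + (M - 1) * (-(M : ℝ) + 1) := by nlinarith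
    nlinarith
  · rw [hq]
    nlinarith
  · rw [hq]
    nlinarith
  · rw [hq]
    nlinarith

/-- every tensor in the open set has `5` critical points, at least `3` of which are real -/
theorem of_mem_U {M : ℕ} (hM : 23 ≤ M) {T : Tensor ℝ (fmt M)} (hT : T ∈ U M) :
    (critSet (toC T)).encard = 5 ∧ 3 ≤ (realCritSet T).encard := by
  have hM0 : 0 < M := by omega
  obtain ⟨h0, h1, h2, h3, h4⟩ := hT
  rw [eval_phiPoly] at h0
  refine ⟨encard_critSet hM0 _ (left_ne_zero_of_mul h0) (right_ne_zero_of_mul h0), ?_⟩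
  have hMR : (23 : ℝ) ≤ M := by exact_mod_cast hM
  have hcont : Continuous (qv T) := by
    unfold qv
    fun_prop
  obtain ⟨y₁, hy1, e1⟩ := intermediate_value_Ioo (by linarith : -(M : ℝ) ≤ -3 / 2)
    hcont.continuousOn ⟨h1, h2⟩
  obtain ⟨y₂, hy2, e2⟩ := intermediate_value_Ioo' (by norm_num : (-3 / 2 : ℝ) ≤ 0)
    hcont.continuousOn ⟨h3, h2⟩
  obtain ⟨y₃, hy3, e3⟩ := intermediate_value_Ioo (by norm_num : (0 : ℝ) ≤ 2)
    hcont.continuousOn ⟨h3, h4⟩
  exact le_realCritSet hM0 T (left_ne_zero_of_mul h0) (hy1.2.trans hy2.1) (hy2.2.trans hy3.1)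
    ((qv_eq T _).trans e1) ((qv_eq T _).trans e2) ((qv_eq T _).trans e3)

/-- the open set contains positive probability tensors -/
theorem exists_positive {M : ℕ} (hM : 23 ≤ M) :
    ∃ T ∈ U M, (∀ I, 0 < T I) ∧ ∑ I, T I = 1 := by
  have hM0 : 0 < M := by omega
  have hMR : (0 : ℝ) < M := by exact_mod_cast hM0
  set f : ℝ → Tensor ℝ (fmt M) := fun s I => (1 - s) * e11 ℝ M hM0 I + s * (1 / (2 * M)) with hf
  have hfc : Continuous f := by
    rw [hf]
    fun_prop
  have hf0 : f 0 ∈ U M := by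
    have : f 0 = e11 ℝ M hM0 := by
      funext I
      simp [hf]
    rw [this]
    exact e11_mem_U hM hM0
  have h1 : ∀ᶠ s in nhds (0 : ℝ), f s ∈ U M := hfc.continuousAt ((isOpen_U M).mem_nhds hf0)
  have h2 : ∀ᶠ s in nhdsWithin (0 : ℝ) (Set.Ioi 0), f s ∈ U M := h1.filter_mono nhdsWithin_le_nhds
  have h3 : ∀ᶠ s in nhdsWithin (0 : ℝ) (Set.Ioi 0), s ∈ Set.Ioo (0 : ℝ) 1 :=
    Ioo_mem_nhdsGT one_pos
  obtain ⟨s, hs, hs0, hs1⟩ := (h2.and h3).exists
  refine ⟨f s, hs, fun I => ?_, ?_⟩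
  · have h4 : 0 ≤ e11 ℝ M hM0 I := by
      obtain ⟨i, j, rfl⟩ := eq_idx I
      rw [e11, tens_idx, Pi.single_apply]
      fin_cases j
      · simp only [Fin.zero_eta, Matrix.cons_val_zero, mul_one]
        split_ifs <;> norm_num
      · simp
    have h5 : 0 < s * (1 / (2 * (M : ℝ))) := by positivity
    have h6 : 0 ≤ (1 - s) * e11 ℝ M hM0 I := mul_nonneg (by linarith) h4
    show 0 < (1 - s) * e11 ℝ M hM0 I + s * (1 / (2 * M))
    linarith
  · show ∑ I, ((1 - s) * e11 ℝ M hM0 I + s * (1 / (2 * (M : ℝ)))) = 1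
    rw [Finset.sum_add_distrib, ← Finset.mul_sum, (e11_values ℝ hM0).1, sum_idx]
    rw [Finset.sum_const, Finset.card_univ, Fintype.card_fin, nsmul_eq_mul]
    field_simp
    ring

/-- **Theorem.** Let `M ≥ 23`. For the rank-one `M × 2` tensors with sum of entries `1`, the number
of complex critical points of the squared distance is `5` for generic data, and there is an open set
of real data, containing probability tensors with positive entries, on which there are exactly `5`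
distinct critical points, at least `3` of them real. -/
theorem result (M : ℕ) (hM : 23 ≤ M) :
    IsGenericCount ![M, 2] 5 ∧
    ∃ V : Set (Tensor ℝ ![M, 2]), IsOpen V ∧
      (∃ T ∈ V, (∀ I, 0 < T I) ∧ ∑ I, T I = 1) ∧
      ∀ T ∈ V, (critSet (toC T)).encard = 5 ∧ 3 ≤ (realCritSet T).encard :=
  ⟨isGenericCount hM, U M, isOpen_U M, exists_positive hM, fun _ hT => of_mem_U hM hT⟩

end Pool.Agent.Results.MP_450528_ag.SeveralRealCriticalPoints
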